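import Pool.Agent.W221.NS.Stm

/-! # MD-FLOWX: existence of the flow (helper398) -/

set_option autoImplicit false

open MeasureTheory Set Metric
open scoped ContDiff NNReal

namespace W398.MD.FLOWX

open H459R3.NS W221.NS

theorem per_int {F : Type*} {f : V → F} (hf : Per f) (m : K3) (x : V) :
    f (x + fun i => (m i : ℝ)) = f x := by
  have h : ∀ (i : Fin 3) (n : ℤ) (y : V), f (y + Pi.single i (n : ℝ)) = f y := by
    intro i n y
    have h1 : Function.Periodic f (Pi.single i (1 : ℝ)) := fun z => hf i z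
    have h2 := h1.zsmul n y
    have h3 : (n • (Pi.single i (1 : ℝ) : V)) = Pi.single i (n : ℝ) := by
      rw [← Pi.single_smul]; simp
    rwa [h3] at h2
  have e : (x + fun i => (m i : ℝ)) = x + Pi.single 0 (m 0 : ℝ) + Pi.single 1 (m 1 : ℝ)
      + Pi.single 2 (m 2 : ℝ) := by
    funext i
    fin_cases i <;> simp
  rw [e, h, h, h]

theorem per_cube {F : Type*} {f : V → F} (hf : Per f) (x : V) :
    ∃ y ∈ cube, f x = f y := by
  refine ⟨fun i => Int.fract (x i), ⟨fun i => Int.fract_nonneg _, fun i => (Int.fract_lt_one _).le⟩,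
    ?_⟩
  have h := per_int hf (fun i => ⌊x i⌋) (fun i => Int.fract (x i))
  rw [← h]
  congr 1
  funext i
  simp

theorem per_fderiv {E : Type*} [NormedAddCommGroup E] [NormedSpace ℝ E] {f : V → E}
    (hp : Per f) : Per (fderiv ℝ f) := by
  intro i x
  have h1 : f = fun y => f (y + Pi.single i 1) := by
    ext y; rw [hp]
  conv_rhs => rw [h1]
  rw [fderiv_comp_add_right]

theorem ode_ge {W : ℝ → V → V} {D : ℝ} {z : ℝ → V}
    (hz : ∀ t ∈ Icc 0 D, HasDerivWithinAt z (W t (z t)) (Icc 0 D) t) :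
    ∀ t ∈ Ico 0 D, HasDerivWithinAt z (W t (z t)) (Ici t) t := by
  intro t ht
  exact (hz t (Ico_subset_Icc_self ht)).mono_of_mem_nhdsWithin (Icc_mem_nhdsGE_of_mem ht)

theorem gron {W : ℝ → V → V} {D : ℝ} {L : ℝ≥0} (hL : ∀ t ∈ Icc 0 D, LipschitzWith L (W t))
    {z z' : ℝ → V} (hz : ∀ t ∈ Icc 0 D, HasDerivWithinAt z (W t (z t)) (Icc 0 D) t)
    (hz' : ∀ t ∈ Icc 0 D, HasDerivWithinAt z' (W t (z' t)) (Icc 0 D) t) :
    ∀ t ∈ Icc 0 D, dist (z t) (z' t) ≤ dist (z 0) (z' 0) * Real.exp (L * (t - 0)) :=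
  dist_le_of_trajectories_ODE_of_mem (s := fun _ => univ)
    (fun t ht => (hL t (Ico_subset_Icc_self ht)).lipschitzOnWith)
    (fun t ht => (hz t ht).continuousWithinAt) (ode_ge hz) (fun _ _ => trivial)
    (fun t ht => (hz' t ht).continuousWithinAt) (ode_ge hz') (fun _ _ => trivial) le_rfl

theorem lip_time {W : ℝ → V → V} {D : ℝ} {M : ℝ} (hM : ∀ t ∈ Icc 0 D, ∀ x, ‖W t x‖ ≤ M)
    {z : ℝ → V} (hz : ∀ t ∈ Icc 0 D, HasDerivWithinAt z (W t (z t)) (Icc 0 D) t) :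
    ∀ t ∈ Icc 0 D, ∀ s ∈ Icc 0 D, dist (z t) (z s) ≤ M * |t - s| := by
  intro t ht s hs
  have := Convex.norm_image_sub_le_of_norm_hasDerivWithin_le (f := z) (s := Icc 0 D) (C := M)
    hz (fun x hx => hM x hx _) (convex_Icc 0 D) hs ht
  rwa [dist_eq_norm]

theorem flow_aux {U : ℝ → V → V} {α β : ℝ} (hαβ : α < β) {M L : ℝ≥0}
    (hU : ContDiffOn ℝ ∞ (fun z : ℝ × V => U z.1 z.2) (Icc α β ×ˢ univ))
    (hM : ∀ t ∈ Icc α β, ∀ x, ‖U t x‖ ≤ M) (hL : ∀ t ∈ Icc α β, LipschitzWith L (U t))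
    (hper : ∀ t ∈ Icc α β, Per (U t)) : ∃ X : ℝ → V → V, Flow0 U α β X := by
  set D : ℝ := β - α with hD
  have hD0 : 0 < D := by rw [hD]; linarith
  set W : ℝ → V → V := fun τ y => -U (β - τ) y with hW
  have hmap : ∀ τ ∈ Icc 0 D, β - τ ∈ Icc α β := by
    intro τ hτ
    rw [hD] at hτ
    exact ⟨by linarith [hτ.2], by linarith [hτ.1]⟩
  have hmap' : ∀ t ∈ Icc α β, β - t ∈ Icc 0 D := by
    intro t ht
    rw [hD]
    exact ⟨by linarith [ht.2], by linarith [ht.1]⟩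
  have hWM : ∀ t ∈ Icc 0 D, ∀ x, ‖W t x‖ ≤ M := by
    intro t ht x
    rw [hW]
    simp only [norm_neg]
    exact hM _ (hmap t ht) x
  have hWL : ∀ t ∈ Icc 0 D, LipschitzWith L (W t) := fun t ht => (hL _ (hmap t ht)).neg
  have hWc : ContDiffOn ℝ ∞ (Function.uncurry W) (Icc 0 D ×ˢ univ) := by
    have h1 : ContDiffOn ℝ ∞ (fun z : ℝ × V => (β - z.1, z.2)) (Icc 0 D ×ˢ univ) :=
      ((contDiff_const.sub contDiff_fst).prodMk contDiff_snd).contDiffOn
    have h2 : MapsTo (fun z : ℝ × V => (β - z.1, z.2)) (Icc 0 D ×ˢ univ) (Icc α β ×ˢ univ) :=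
      fun z hz => ⟨hmap _ hz.1, trivial⟩
    exact (hU.comp h1 h2).neg
  have hWp : ∀ t ∈ Icc 0 D, ∀ (x : V) (i : Fin 3), W t (x + Pi.single i 1) = W t x := by
    intro t ht x i
    rw [hW]
    simp only
    rw [hper _ (hmap t ht) i x]
  -- the solutions
  have hex : ∀ x : V, ∃ z : ℝ → V, z 0 = x ∧
      ∀ t ∈ Icc 0 D, HasDerivWithinAt z (W t (z t)) (Icc 0 D) t := by
    intro x
    have hPL : IsPicardLindelof W (⟨0, ⟨le_rfl, hD0.le⟩⟩ : Icc 0 D) x (M * ⟨D, hD0.le⟩) 0 M L := by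
      refine ⟨fun t ht => (hWL t ht).lipschitzOnWith, fun y _ => ?_, fun t ht y _ => hWM t ht y, ?_⟩
      · have h3 : ContinuousOn (fun t : ℝ => (t, y)) (Icc 0 D) := by fun_prop
        exact hWc.continuousOn.comp h3 (fun t ht => ⟨ht, trivial⟩)
      · simp only [sub_zero, sub_self, NNReal.coe_zero]
        rw [max_eq_left hD0.le]
        exact le_rfl
    obtain ⟨z, hz0, hz⟩ := hPL.exists_eq_forall_mem_Icc_hasDerivWithinAt₀
    exact ⟨z, hz0, hz⟩
  choose Z hZ0 hZ using hex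
  have hlipx : ∀ x y : V, ∀ t ∈ Icc 0 D, dist (Z x t) (Z y t) ≤ dist x y * Real.exp (L * D) := by
    intro x y t ht
    have h1 := gron hWL (hZ x) (hZ y) t ht
    rw [hZ0, hZ0] at h1
    refine h1.trans (mul_le_mul_of_nonneg_left (Real.exp_le_exp.2 ?_) dist_nonneg)
    rw [sub_zero]
    exact mul_le_mul_of_nonneg_left ht.2 L.2
  refine ⟨fun t x => Z x (β - t), ?_, ?_, ?_, ?_, ?_⟩
  · -- continuity
    set C : ℝ≥0 := M + ⟨Real.exp (L * D), (Real.exp_pos _).le⟩ with hC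
    have : LipschitzOnWith C (fun z : ℝ × V => Z z.2 (β - z.1)) (Icc α β ×ˢ univ) := by
      refine LipschitzOnWith.of_dist_le_mul fun p hp p' hp' => ?_
      have h1 := lip_time hWM (hZ p.2) _ (hmap' _ hp.1) _ (hmap' _ hp'.1)
      have h2 := hlipx p.2 p'.2 _ (hmap' _ hp'.1)
      have h3 : dist p.1 p'.1 ≤ dist p p' := by rw [Prod.dist_eq]; exact le_max_left _ _
      have h4 : dist p.2 p'.2 ≤ dist p p' := by rw [Prod.dist_eq]; exact le_max_right _ _
      have h5 : |β - p.1 - (β - p'.1)| = dist p.1 p'.1 := by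
        rw [Real.dist_eq, abs_sub_comm]
        congr 1
        ring
      rw [h5] at h1
      have h6 : (C : ℝ) = M + Real.exp (L * D) := by rw [hC]; rfl
      calc dist (Z p.2 (β - p.1)) (Z p'.2 (β - p'.1)) ≤
          dist (Z p.2 (β - p.1)) (Z p.2 (β - p'.1)) +
            dist (Z p.2 (β - p'.1)) (Z p'.2 (β - p'.1)) := dist_triangle _ _ _
        _ ≤ M * dist p.1 p'.1 + dist p.2 p'.2 * Real.exp (L * D) := add_le_add h1 h2
        _ ≤ M * dist p p' + dist p p' * Real.exp (L * D) := by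
          gcongr
        _ = C * dist p p' := by rw [h6]; ring
    exact this.continuousOn
  · intro x
    simp only [sub_self]
    exact hZ0 x
  · intro x t ht
    have ht' : β - t ∈ Ioo 0 D := by
      rw [hD]
      exact ⟨by linarith [ht.2], by linarith [ht.1]⟩
    have h1 : HasDerivAt (Z x) (W (β - t) (Z x (β - t))) (β - t) :=
      (hZ x _ (Ioo_subset_Icc_self ht')).hasDerivAt (Icc_mem_nhds ht'.1 ht'.2)
    have h2 := h1.comp_const_sub β t
    have h3 : -W (β - t) (Z x (β - t)) = U t (Z x (β - t)) := by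
      rw [hW]
      simp only [neg_neg, sub_sub_cancel]
    rw [h3] at h2
    exact h2
  · intro x
    have h1 : ContDiffOn ℝ ((⊤ : ℕ∞) : WithTop ℕ∞) (Z x) (Icc 0 D) :=
      ODE.contDiffOn_enat_Icc_of_hasDerivWithinAt (n := ⊤) (u := univ) hWc (hZ x)
        (fun _ _ => trivial)
    have h2 : ContDiffOn ℝ ∞ (fun τ : ℝ => β - τ) (Ioo α β) :=
      (contDiff_const.sub contDiff_id).contDiffOn
    exact h1.comp h2 (fun t ht => hmap' t (Ioo_subset_Icc_self ht))
  · intro t ht x i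
    have h1 : ∀ s ∈ Icc 0 D, HasDerivWithinAt (fun τ => Z x τ + Pi.single i 1)
        (W s (Z x s + Pi.single i 1)) (Icc 0 D) s := by
      intro s hs
      rw [hWp s hs]
      exact (hZ x s hs).add_const _
    have h2 := gron hWL (hZ (x + Pi.single i 1)) h1 (β - t) (hmap' t ht)
    rw [hZ0, hZ0, dist_self, zero_mul] at h2
    exact dist_le_zero.1 h2

theorem t_FLOWX : S_FLOWX := by
  intro T U hG α β hα hαβ hβ
  obtain ⟨hU, hP, -⟩ := hG
  have hsub : Icc α β ⊆ Ioo 0 T := fun t ht => ⟨hα.trans_le ht.1, ht.2.trans_lt hβ⟩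
  have hopen : IsOpen (Ioo 0 T ×ˢ (univ : Set V)) := isOpen_Ioo.prod isOpen_univ
  set F : ℝ × V → V := fun z => U z.1 z.2 with hF
  have hK : IsCompact (Icc α β ×ˢ cube) := isCompact_Icc.prod isCompact_Icc
  have hKsub : Icc α β ×ˢ cube ⊆ Ioo 0 T ×ˢ (univ : Set V) :=
    fun z hz => ⟨hsub hz.1, trivial⟩
  obtain ⟨M, hM⟩ := hK.exists_bound_of_continuousOn (hU.continuousOn.mono hKsub)
  have hfc : ContinuousOn (fderiv ℝ F) (Ioo 0 T ×ˢ (univ : Set V)) :=
    hU.continuousOn_fderiv_of_isOpen hopen (by norm_cast)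
  obtain ⟨C, hC⟩ := hK.exists_bound_of_continuousOn (hfc.mono hKsub)
  have hFd : ∀ t ∈ Ioo 0 T, ∀ x : V, HasFDerivAt F (fderiv ℝ F (t, x)) (t, x) := by
    intro t ht x
    have h1 : (t, x) ∈ Ioo 0 T ×ˢ (univ : Set V) := ⟨ht, trivial⟩
    exact ((hU.differentiableOn (by norm_cast)) _ h1).differentiableAt
      (hopen.mem_nhds h1) |>.hasFDerivAt
  have hUd : ∀ t ∈ Ioo 0 T, ∀ x : V, HasFDerivAt (U t)
      ((fderiv ℝ F (t, x)).comp (ContinuousLinearMap.inr ℝ ℝ V)) x := by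
    intro t ht x
    exact (hFd t ht x).comp x (hasFDerivAt_prodMk_right t x)
  have hM' : ∀ t ∈ Icc α β, ∀ x, ‖U t x‖ ≤ (M.toNNReal : ℝ≥0) := by
    intro t ht x
    obtain ⟨y, hy, hxy⟩ := per_cube (hP t (hsub ht)) x
    rw [hxy]
    exact (hM (t, y) ⟨ht, hy⟩).trans (Real.le_coe_toNNReal M)
  have hL' : ∀ t ∈ Icc α β, LipschitzWith C.toNNReal (U t) := by
    intro t ht
    refine lipschitzWith_of_nnnorm_fderiv_le (fun x => (hUd t (hsub ht) x).differentiableAt) ?_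
    intro x
    obtain ⟨y, hy, hxy⟩ := per_cube (per_fderiv (hP t (hsub ht))) x
    rw [hxy, (hUd t (hsub ht) y).fderiv, ← NNReal.coe_le_coe, coe_nnnorm]
    refine le_trans ?_ ((hC (t, y) ⟨ht, hy⟩).trans (Real.le_coe_toNNReal C))
    refine (ContinuousLinearMap.opNorm_comp_le _ _).trans ?_
    have h1 : ‖ContinuousLinearMap.inr ℝ ℝ V‖ ≤ 1 := ContinuousLinearMap.norm_inr_le_one _ _ _
    exact mul_le_of_le_one_right (norm_nonneg _) h1
  exact flow_aux hαβ (hU.mono fun z hz => ⟨hsub hz.1, trivial⟩) hM' hL'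
    (fun t ht => hP t (hsub ht))

end W398.MD.FLOWX
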